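import Mathlib
set_option autoImplicit false
open Set

namespace Pool.Agent.helper30.OpenMul

/-- `CoveringDimLE X n`: the Lebesgue covering dimension of `X` is at most `n`, i.e. every finite
open cover of `X` has a finite open refinement covering `X` such that every point of `X` lies in
at most `n + 1` members of the refinement. -/
def CoveringDimLE (X : Type*) [TopologicalSpace X] (n : ℕ) : Prop :=
  ∀ (k : ℕ) (U : Fin k → Set X), (∀ i, IsOpen (U i)) → (⋃ i, U i) = univ →
    ∃ (m : ℕ) (V : Fin m → Set X), (∀ j, IsOpen (V j)) ∧ (⋃ j, V j) = univ ∧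
      (∀ j, ∃ i, V j ⊆ U i) ∧ ∀ x : X, {j | x ∈ V j}.ncard ≤ n + 1

end Pool.Agent.helper30.OpenMul
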