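import Mathlib
import Pool.Agent.helper30.OpenMul.Defs
set_option autoImplicit false
open Set Metric

/-!
# Multiplication in `C(X, ℂ)` is uniformly open when `dim X ≤ 1`

Idea of the proof.
* Scalars: if `|c - a b| ≤ r ^ 2`, then `c = A B` with `|A - a|, |B - b| ≤ 3 r`, and any two such
  factorisations can be joined by a path of factorisations of `c` that stays within distance
  comparable with `r` of `(a, b)` (`scalar_open`, `scalar_joined`).
* An open cover of `X` of order two on which `a, b, h` are almost constant, together with a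
  partition of unity, lets one glue scalar factorisations along those paths; this factorises `h`
  up to any prescribed error (`glue`, `step`).
* A geometric iteration turns this into an exact factorisation (`exact_factor`).
-/

namespace Pool.Agent.helper30.OpenMul

/-- Scalar openness of multiplication with a square-root modulus. -/
lemma scalar_open (a b c : ℂ) (r : ℝ) (hr : 0 < r) (h : ‖c - a * b‖ ≤ r ^ 2) :
    ∃ A B : ℂ, A * B = c ∧ ‖A - a‖ ≤ 3 * r ∧ ‖B - b‖ ≤ 3 * r := by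
  by_cases ha : r ≤ ‖a‖
  · have ha0 : a ≠ 0 := by
      intro h0; rw [h0, norm_zero] at ha; linarith
    refine ⟨a, c / a, by field_simp, by simp; positivity, ?_⟩
    have : c / a - b = (c - a * b) / a := by field_simp
    rw [this, norm_div, div_le_iff₀ (by positivity)]
    nlinarith
  · by_cases hb : r ≤ ‖b‖
    · have hb0 : b ≠ 0 := by
        intro h0; rw [h0, norm_zero] at hb; linarith
      refine ⟨c / b, b, by field_simp, ?_, by simp; positivity⟩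
      have : c / b - a = (c - a * b) / b := by field_simp
      rw [this, norm_div, div_le_iff₀ (by positivity)]
      nlinarith
    · push Not at ha hb
      obtain ⟨s, hs⟩ := IsAlgClosed.exists_pow_nat_eq c (n := 2) (by norm_num)
      have hc : ‖c‖ ≤ 2 * r ^ 2 := by
        have h1 : ‖c‖ ≤ ‖c - a * b‖ + ‖a * b‖ := by
          have := norm_add_le (c - a * b) (a * b)
          simpa using this
        rw [norm_mul] at h1
        nlinarith [norm_nonneg a, norm_nonneg b]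
      have hs2 : ‖s‖ ≤ 2 * r := by
        have h2 : ‖s‖ ^ 2 ≤ 2 * r ^ 2 := by
          rw [← norm_pow, hs]; exact hc
        nlinarith [norm_nonneg s]
      refine ⟨s, s, by rw [← hs]; ring, ?_, ?_⟩
      · calc ‖s - a‖ ≤ ‖s‖ + ‖a‖ := norm_sub_le _ _
          _ ≤ 3 * r := by linarith
      · calc ‖s - b‖ ≤ ‖s‖ + ‖b‖ := norm_sub_le _ _
          _ ≤ 3 * r := by linarith

/-- Straight segments in a closed ball. -/
lemma seg_bound (a z w : ℂ) (r t : ℝ) (ht : t ∈ unitInterval) (hz : ‖z - a‖ ≤ r)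
    (hw : ‖w - a‖ ≤ r) : ‖((1 - t : ℝ) : ℂ) * z + (t : ℂ) * w - a‖ ≤ r := by
  obtain ⟨h0, h1⟩ := ht
  have : ((1 - t : ℝ) : ℂ) * z + (t : ℂ) * w - a = ((1 - t : ℝ) : ℂ) * (z - a) + (t : ℂ) * (w - a) := by
    push_cast; ring
  rw [this]
  calc _ ≤ ‖((1 - t : ℝ) : ℂ) * (z - a)‖ + ‖(t : ℂ) * (w - a)‖ := norm_add_le _ _
    _ = (1 - t) * ‖z - a‖ + t * ‖w - a‖ := by
        rw [norm_mul, norm_mul, Complex.norm_real, Complex.norm_real, Real.norm_of_nonneg (by linarith),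
          Real.norm_of_nonneg h0]
    _ ≤ r := by nlinarith [norm_nonneg (z - a), norm_nonneg (w - a)]

/-- Joining in the zero fibre when the first coordinate vanishes at the start. -/
lemma joined_to_zero (a b A B : ℂ) (r : ℝ) (hab : A * B = 0)
    (ha : ‖a‖ ≤ r) (hb : ‖b‖ ≤ r)
    (hA : ‖A - a‖ ≤ r) (hB : ‖B - b‖ ≤ r) :
    JoinedIn {p : ℂ × ℂ | p.1 * p.2 = 0 ∧ ‖p.1 - a‖ ≤ r ∧ ‖p.2 - b‖ ≤ r}
      (A, B) (0, 0) := by
  refine JoinedIn.ofLine (f := fun t : ℝ => (((1 - t : ℝ) : ℂ) * A + (t : ℂ) * 0, ((1 - t : ℝ) : ℂ) * B + (t : ℂ) * 0))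
    (by fun_prop) (by simp) (by simp) ?_
  rintro _ ⟨t, ht, rfl⟩
  refine ⟨?_, ?_, ?_⟩
  · simp only [mul_zero, add_zero]
    have : ((1 - t : ℝ) : ℂ) * A * (((1 - t : ℝ) : ℂ) * B) = ((1 - t : ℝ) : ℂ) * ((1 - t : ℝ) : ℂ) * (A * B) := by ring
    rw [this, hab, mul_zero]
  · exact seg_bound a A 0 r t ht hA (by simpa using ha)
  · exact seg_bound b B 0 r t ht hB (by simpa using hb)

/-- Joining in a nonzero fibre by a segment in the large coordinate. -/
lemma joined_large (a b c A₀ B₀ A₁ B₁ : ℂ) (r : ℝ) (hr : 0 < r)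
    (h₀ : A₀ * B₀ = c) (h₁ : A₁ * B₁ = c)
    (hA₀ : ‖A₀ - a‖ ≤ r) (hB₀ : ‖B₀ - b‖ ≤ r) (hA₁ : ‖A₁ - a‖ ≤ r)
    (hab : ‖b‖ ≤ ‖a‖) (ha : 3 * r ≤ ‖a‖) :
    JoinedIn {p : ℂ × ℂ | p.1 * p.2 = c ∧ ‖p.1 - a‖ ≤ 9 * r ∧ ‖p.2 - b‖ ≤ 9 * r}
      (A₀, B₀) (A₁, B₁) := by
  have key : ∀ t ∈ unitInterval, 2 / 3 * ‖a‖ ≤ ‖((1 - t : ℝ) : ℂ) * A₀ + (t : ℂ) * A₁‖ := by
    intro t ht
    have h1 := seg_bound a A₀ A₁ r t ht hA₀ hA₁
    have h2 : ‖a‖ ≤ ‖((1 - t : ℝ) : ℂ) * A₀ + (t : ℂ) * A₁‖ + ‖((1 - t : ℝ) : ℂ) * A₀ + (t : ℂ) * A₁ - a‖ := by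
      have := norm_sub_le (((1 - t : ℝ) : ℂ) * A₀ + (t : ℂ) * A₁) (((1 - t : ℝ) : ℂ) * A₀ + (t : ℂ) * A₁ - a)
      simpa using this
    linarith
  have key0 : ∀ t ∈ unitInterval, ((1 - t : ℝ) : ℂ) * A₀ + (t : ℂ) * A₁ ≠ 0 := by
    intro t ht h
    have := key t ht
    rw [h, norm_zero] at this
    linarith
  have hA0 : A₀ ≠ 0 := by simpa using key0 0 (by simp)
  have hA1 : A₁ ≠ 0 := by simpa using key0 1 (by simp)
  refine JoinedIn.ofLine (f := fun t : ℝ => (((1 - t : ℝ) : ℂ) * A₀ + (t : ℂ) * A₁,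
    c / (((1 - t : ℝ) : ℂ) * A₀ + (t : ℂ) * A₁))) ?_ ?_ ?_ ?_
  · refine ContinuousOn.prodMk (by fun_prop) (ContinuousOn.div (by fun_prop) (by fun_prop) key0)
  · simp only [sub_zero, Complex.ofReal_one, one_mul, Complex.ofReal_zero, zero_mul, add_zero,
      Prod.mk.injEq, true_and]
    rw [← h₀]; field_simp
  · simp only [sub_self, Complex.ofReal_one, one_mul, Complex.ofReal_zero, zero_mul, zero_add,
      Prod.mk.injEq, true_and]
    rw [← h₁]; field_simp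
  · rintro _ ⟨t, ht, rfl⟩
    have hk := key0 t ht
    refine ⟨?_, ?_, ?_⟩
    · simp only []
      rw [mul_div_cancel₀ _ hk]
    · have := seg_bound a A₀ A₁ r t ht hA₀ hA₁
      simp only []
      linarith
    · simp only []
      set D := ((1 - t : ℝ) : ℂ) * A₀ + (t : ℂ) * A₁ with hD
      have e1 : c / D - b = (B₀ - b) + B₀ * (A₀ - D) / D := by
        rw [← h₀]; field_simp; ring
      have hDA : ‖A₀ - D‖ ≤ 2 * r := by
        have h1 := seg_bound a A₀ A₁ r t ht hA₀ hA₁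
        have : A₀ - D = (A₀ - a) - (D - a) := by ring
        rw [this]
        calc _ ≤ ‖A₀ - a‖ + ‖D - a‖ := norm_sub_le _ _
          _ ≤ 2 * r := by linarith
      have hB0 : ‖B₀‖ ≤ 4 / 3 * ‖a‖ := by
        have : ‖B₀‖ ≤ ‖B₀ - b‖ + ‖b‖ := by
          have := norm_add_le (B₀ - b) b
          simpa using this
        linarith
      rw [e1]
      calc _ ≤ ‖B₀ - b‖ + ‖B₀ * (A₀ - D) / D‖ := norm_add_le _ _
        _ ≤ r + 4 * r := by
          gcongr
          rw [norm_div, norm_mul, div_le_iff₀ (by positivity)]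
          have := key t ht
          calc ‖B₀‖ * ‖A₀ - D‖ ≤ (4 / 3 * ‖a‖) * (2 * r) := by gcongr
            _ ≤ 4 * r * ‖D‖ := by nlinarith
        _ ≤ 9 * r := by linarith

/-- Joining in a nonzero fibre in the region where both coordinates are small. -/
lemma joined_small (a b c A₀ B₀ A₁ B₁ : ℂ) (r : ℝ) (hc : c ≠ 0)
    (h₀ : A₀ * B₀ = c) (h₁ : A₁ * B₁ = c)
    (hA₀ : ‖A₀‖ ≤ 4 * r) (hB₀ : ‖B₀‖ ≤ 4 * r) (hA₁ : ‖A₁‖ ≤ 4 * r) (hB₁ : ‖B₁‖ ≤ 4 * r)
    (ha : ‖a‖ ≤ 3 * r) (hb : ‖b‖ ≤ 3 * r) :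
    JoinedIn {p : ℂ × ℂ | p.1 * p.2 = c ∧ ‖p.1 - a‖ ≤ 9 * r ∧ ‖p.2 - b‖ ≤ 9 * r}
      (A₀, B₀) (A₁, B₁) := by
  have hr : 0 ≤ r := by linarith [norm_nonneg a]
  have hA0 : A₀ ≠ 0 := by rintro rfl; simp at h₀; exact hc h₀.symm
  have hA1 : A₁ ≠ 0 := by rintro rfl; simp at h₁; exact hc h₁.symm
  have hB0 : B₀ ≠ 0 := by rintro rfl; simp at h₀; exact hc h₀.symm
  have hB1 : B₁ ≠ 0 := by rintro rfl; simp at h₁; exact hc h₁.symm
  set g : ℝ → ℂ := fun t => Complex.exp (((1 - t : ℝ) : ℂ) * Complex.log A₀ + (t : ℂ) * Complex.log A₁) with hg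
  have hg0 : g 0 = A₀ := by simp [hg, Complex.exp_log hA0]
  have hg1 : g 1 = A₁ := by simp [hg, Complex.exp_log hA1]
  have hgne : ∀ t, g t ≠ 0 := fun t => Complex.exp_ne_zero _
  have hgn : ∀ t, ‖g t‖ = Real.exp ((1 - t) * Real.log ‖A₀‖ + t * Real.log ‖A₁‖) := by
    intro t
    simp only [hg]
    rw [Complex.norm_exp]
    congr 1
    simp [Complex.log_re]
  have hcn : ‖c‖ = Real.exp (Real.log ‖c‖) := by
    rw [Real.exp_log (by positivity)]
  have hl0 : Real.log ‖c‖ = Real.log ‖A₀‖ + Real.log ‖B₀‖ := by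
    rw [← h₀, norm_mul, Real.log_mul (by positivity) (by positivity)]
  have hl1 : Real.log ‖c‖ = Real.log ‖A₁‖ + Real.log ‖B₁‖ := by
    rw [← h₁, norm_mul, Real.log_mul (by positivity) (by positivity)]
  have hr' : 0 < 4 * r := lt_of_lt_of_le (by positivity) hA₀
  have lA0 : Real.log ‖A₀‖ ≤ Real.log (4 * r) := Real.log_le_log (by positivity) hA₀
  have lA1 : Real.log ‖A₁‖ ≤ Real.log (4 * r) := Real.log_le_log (by positivity) hA₁
  have lB0 : Real.log ‖B₀‖ ≤ Real.log (4 * r) := Real.log_le_log (by positivity) hB₀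
  have lB1 : Real.log ‖B₁‖ ≤ Real.log (4 * r) := Real.log_le_log (by positivity) hB₁
  have hgle : ∀ t ∈ unitInterval, ‖g t‖ ≤ 4 * r := by
    rintro t ⟨ht0, ht1⟩
    rw [hgn, ← Real.exp_log hr']
    apply Real.exp_le_exp.2
    nlinarith
  have hgle' : ∀ t ∈ unitInterval, ‖c / g t‖ ≤ 4 * r := by
    rintro t ⟨ht0, ht1⟩
    rw [norm_div, hgn, hcn, ← Real.exp_sub, ← Real.exp_log hr']
    apply Real.exp_le_exp.2
    have : Real.log ‖c‖ - ((1 - t) * Real.log ‖A₀‖ + t * Real.log ‖A₁‖)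
        = (1 - t) * Real.log ‖B₀‖ + t * Real.log ‖B₁‖ := by
      have : Real.log ‖c‖ = (1 - t) * (Real.log ‖A₀‖ + Real.log ‖B₀‖) + t * (Real.log ‖A₁‖ + Real.log ‖B₁‖) := by
        rw [← hl0, ← hl1]; ring
      rw [this]; ring
    rw [this]
    nlinarith
  refine JoinedIn.ofLine (f := fun t : ℝ => (g t, c / g t)) ?_ ?_ ?_ ?_
  · apply Continuous.continuousOn
    have : Continuous g := by simp only [hg]; fun_prop
    exact this.prodMk (continuous_const.div this hgne)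
  · simp only [hg0, Prod.mk.injEq, true_and]
    rw [← h₀]; field_simp
  · simp only [hg1, Prod.mk.injEq, true_and]
    rw [← h₁]; field_simp
  · rintro _ ⟨t, ht, rfl⟩
    refine ⟨?_, ?_, ?_⟩
    · simp only []
      rw [mul_div_cancel₀ _ (hgne t)]
    · simp only []
      calc _ ≤ ‖g t‖ + ‖a‖ := norm_sub_le _ _
        _ ≤ 9 * r := by linarith [hgle t ht]
    · simp only []
      calc _ ≤ ‖c / g t‖ + ‖b‖ := norm_sub_le _ _
        _ ≤ 9 * r := by linarith [hgle' t ht]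

/-- swap symmetry -/
lemma joined_swap (a b c A₀ B₀ A₁ B₁ : ℂ) (r : ℝ)
    (h : JoinedIn {p : ℂ × ℂ | p.1 * p.2 = c ∧ ‖p.1 - a‖ ≤ r ∧ ‖p.2 - b‖ ≤ r} (A₀, B₀) (A₁, B₁)) :
    JoinedIn {p : ℂ × ℂ | p.1 * p.2 = c ∧ ‖p.1 - b‖ ≤ r ∧ ‖p.2 - a‖ ≤ r} (B₀, A₀) (B₁, A₁) := by
  obtain ⟨γ, hγ⟩ := h
  refine ⟨γ.map continuous_swap, fun t => ?_⟩
  obtain ⟨h1, h2, h3⟩ := hγ t
  refine ⟨?_, h3, h2⟩
  simp only [Path.map_coe, Function.comp_apply, Prod.fst_swap, Prod.snd_swap]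
  rw [mul_comm]; exact h1

/-- Scalar connectedness. -/
lemma scalar_joined (a b c A₀ B₀ A₁ B₁ : ℂ) (r : ℝ) (hr : 0 < r)
    (h₀ : A₀ * B₀ = c) (h₁ : A₁ * B₁ = c)
    (hA₀ : ‖A₀ - a‖ ≤ r) (hB₀ : ‖B₀ - b‖ ≤ r) (hA₁ : ‖A₁ - a‖ ≤ r) (hB₁ : ‖B₁ - b‖ ≤ r) :
    JoinedIn {p : ℂ × ℂ | p.1 * p.2 = c ∧ ‖p.1 - a‖ ≤ 9 * r ∧ ‖p.2 - b‖ ≤ 9 * r}
      (A₀, B₀) (A₁, B₁) := by
  by_cases ha : 3 * r ≤ ‖a‖ ∧ ‖b‖ ≤ ‖a‖
  · exact joined_large a b c A₀ B₀ A₁ B₁ r hr h₀ h₁ hA₀ hB₀ hA₁ ha.2 ha.1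
  by_cases hb : 3 * r ≤ ‖b‖ ∧ ‖a‖ ≤ ‖b‖
  · apply joined_swap
    exact joined_large b a c B₀ A₀ B₁ A₁ r hr (by rw [mul_comm]; exact h₀) (by rw [mul_comm]; exact h₁) hB₀ hA₀ hB₁ hb.2 hb.1
  have hsmall : ‖a‖ ≤ 3 * r ∧ ‖b‖ ≤ 3 * r := by
    rcases le_total ‖a‖ ‖b‖ with h | h
    · have : ‖b‖ < 3 * r := by
        by_contra hcon
        push Not at hcon
        exact hb ⟨hcon, h⟩
      exact ⟨by linarith, by linarith⟩
    · have : ‖a‖ < 3 * r := by
        by_contra hcon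
        push Not at hcon
        exact ha ⟨hcon, h⟩
      exact ⟨by linarith, by linarith⟩
  have tri : ∀ x y : ℂ, ‖x‖ ≤ ‖x - y‖ + ‖y‖ := fun x y => by
    have := norm_add_le (x - y) y
    simpa using this
  have nA₀ := tri A₀ a
  have nB₀ := tri B₀ b
  have nA₁ := tri A₁ a
  have nB₁ := tri B₁ b
  by_cases hc : c = 0
  · subst hc
    have e : JoinedIn {p : ℂ × ℂ | p.1 * p.2 = 0 ∧ ‖p.1 - a‖ ≤ 3 * r ∧ ‖p.2 - b‖ ≤ 3 * r} (A₀, B₀) (A₁, B₁) :=
      (joined_to_zero a b A₀ B₀ (3 * r) h₀ hsmall.1 hsmall.2 (by linarith) (by linarith)).trans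
      (joined_to_zero a b A₁ B₁ (3 * r) h₁ hsmall.1 hsmall.2 (by linarith) (by linarith)).symm
    refine e.mono ?_
    rintro p ⟨h1, h2, h3⟩
    exact ⟨h1, by linarith, by linarith⟩
  · exact joined_small a b c A₀ B₀ A₁ B₁ r hc h₀ h₁ (by linarith [hsmall.1]) (by linarith [hsmall.2]) (by linarith [hsmall.1])
      (by linarith [hsmall.2]) hsmall.1 hsmall.2


/-- Scalar connectedness, for nearby products. -/
lemma scalar_joined' (a b c₀ c₁ A₀ B₀ A₁ B₁ : ℂ) (r κ : ℝ) (hκ : 0 < κ) (hκr : 3 * κ ≤ r)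
    (h₀ : A₀ * B₀ = c₀) (h₁ : A₁ * B₁ = c₁) (hc : ‖c₀ - c₁‖ ≤ κ ^ 2)
    (hA₀ : ‖A₀ - a‖ ≤ 4 * r) (hB₀ : ‖B₀ - b‖ ≤ 4 * r) (hA₁ : ‖A₁ - a‖ ≤ 4 * r)
    (hB₁ : ‖B₁ - b‖ ≤ 4 * r) :
    JoinedIn {p : ℂ × ℂ | ‖p.1 * p.2 - c₀‖ ≤ 10 * κ ^ 2 ∧ ‖p.1 - a‖ ≤ 45 * r ∧ ‖p.2 - b‖ ≤ 45 * r}
      (A₀, B₀) (A₁, B₁) := by
  have hr : 0 < r := by linarith
  obtain ⟨A, B, hAB, hA, hB⟩ := scalar_open A₁ B₁ c₀ κ hκ (by rw [h₁]; exact hc)
  have tA : ‖A - a‖ ≤ 5 * r := by
    have : A - a = (A - A₁) + (A₁ - a) := by ring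
    rw [this]
    calc _ ≤ ‖A - A₁‖ + ‖A₁ - a‖ := norm_add_le _ _
      _ ≤ 5 * r := by linarith
  have tB : ‖B - b‖ ≤ 5 * r := by
    have : B - b = (B - B₁) + (B₁ - b) := by ring
    rw [this]
    calc _ ≤ ‖B - B₁‖ + ‖B₁ - b‖ := norm_add_le _ _
      _ ≤ 5 * r := by linarith
  have j1 := scalar_joined a b c₀ A₀ B₀ A B (5 * r) (by linarith) h₀ hAB (by linarith) (by linarith) tA tB
  have j2 : JoinedIn {p : ℂ × ℂ | ‖p.1 * p.2 - c₀‖ ≤ 10 * κ ^ 2 ∧ ‖p.1 - a‖ ≤ 5 * r ∧ ‖p.2 - b‖ ≤ 5 * r}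
      (A, B) (A₁, B₁) := by
    refine JoinedIn.ofLine (f := fun t : ℝ => (((1 - t : ℝ) : ℂ) * A + (t : ℂ) * A₁,
      ((1 - t : ℝ) : ℂ) * B + (t : ℂ) * B₁)) (by fun_prop) (by simp) (by simp) ?_
    rintro _ ⟨t, ht, rfl⟩
    refine ⟨?_, seg_bound a A A₁ (5 * r) t ht tA (by linarith), seg_bound b B B₁ (5 * r) t ht tB (by linarith)⟩
    obtain ⟨ht0, ht1⟩ := ht
    have e : (((1 - t : ℝ) : ℂ) * A + (t : ℂ) * A₁) * (((1 - t : ℝ) : ℂ) * B + (t : ℂ) * B₁) - c₀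
        = (t : ℂ) * (c₁ - c₀) - ((t * (1 - t) : ℝ) : ℂ) * ((A - A₁) * (B - B₁)) := by
      rw [← h₁, ← hAB]; push_cast; ring
    simp only [] at e ⊢
    rw [e]
    calc _ ≤ ‖(t : ℂ) * (c₁ - c₀)‖ + ‖((t * (1 - t) : ℝ) : ℂ) * ((A - A₁) * (B - B₁))‖ := norm_sub_le _ _
      _ = t * ‖c₁ - c₀‖ + (t * (1 - t)) * (‖A - A₁‖ * ‖B - B₁‖) := by
        rw [norm_mul, norm_mul, norm_mul, Complex.norm_real, Complex.norm_real,
          Real.norm_of_nonneg ht0, Real.norm_of_nonneg (mul_nonneg ht0 (by linarith))]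
      _ ≤ 1 * κ ^ 2 + 1 * ((3 * κ) * (3 * κ)) := by
        rw [norm_sub_rev c₁ c₀]
        have : t * (1 - t) ≤ 1 := by nlinarith
        have h0 : 0 ≤ t * (1 - t) := mul_nonneg ht0 (by linarith)
        gcongr
      _ = 10 * κ ^ 2 := by ring
  refine (j1.mono ?_).trans (j2.mono ?_)
  · rintro p ⟨h1, h2, h3⟩
    refine ⟨?_, by linarith, by linarith⟩
    rw [h1, sub_self, norm_zero]; positivity
  · rintro p ⟨h1, h2, h3⟩
    exact ⟨h1, by linarith, by linarith⟩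

section glue

variable {X : Type*} [TopologicalSpace X] {m : ℕ} (p : Fin m → C(X, ℝ))
  (hnonneg : ∀ i x, 0 ≤ p i x) (hsum : ∀ x, ∑ i, p i x = 1)
  (hord : ∀ x, {j | p j x ≠ 0}.ncard ≤ 2)

include hsum in
lemma pair_sum (hord : ∀ x, {j | p j x ≠ 0}.ncard ≤ 2) (x : X) (i j : Fin m) (hij : i ≠ j)
    (hi : p i x ≠ 0) (hj : p j x ≠ 0) :
    (∀ k, k ≠ i → k ≠ j → p k x = 0) ∧ p i x + p j x = 1 := by
  have h1 : ∀ k, k ≠ i → k ≠ j → p k x = 0 := by
    intro k hki hkj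
    by_contra hk
    have hsub : (({i, j, k} : Finset (Fin m)) : Set (Fin m)) ⊆ {j | p j x ≠ 0} := by
      intro l hl
      simp only [Finset.coe_insert, Finset.coe_singleton, mem_insert_iff, mem_singleton_iff] at hl
      rcases hl with rfl | rfl | rfl
      · exact hi
      · exact hj
      · exact hk
    have h2 := Set.ncard_le_ncard hsub (Set.toFinite _)
    rw [Set.ncard_coe_finset] at h2
    have h3 : ({i, j, k} : Finset (Fin m)).card = 3 := by
      rw [Finset.card_eq_three]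
      exact ⟨i, j, k, hij, hki.symm, hkj.symm, rfl⟩
    have := hord x
    omega
  refine ⟨h1, ?_⟩
  rw [← hsum x]
  rw [Finset.sum_eq_add i j hij (fun c _ hc => h1 c hc.1 hc.2) (by simp) (by simp)]

include hnonneg hsum in
lemma glue (hord : ∀ x, {j | p j x ≠ 0}.ncard ≤ 2) {E : Type*} [NormedAddCommGroup E] [NormedSpace ℝ E]
    (P : Fin m → E) (γ : Fin m → Fin m → ℝ → E)
    (hγ : ∀ i j, Continuous (γ i j)) (h0 : ∀ i j, γ i j 0 = P i) (h1 : ∀ i j, γ i j 1 = P j) :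
    ∃ Φ : C(X, E), ∀ x, (∃ i, p i x ≠ 0 ∧ Φ x = P i) ∨
      (∃ i j, i < j ∧ p i x ≠ 0 ∧ p j x ≠ 0 ∧ ∃ t ∈ unitInterval, Φ x = γ i j t) := by
  classical
  set d : Fin m → Fin m → ℝ → E := fun i j t => γ i j t - ((1 - t) • P i + t • P j) with hd
  have hdc : ∀ i j, Continuous (d i j) := by
    intro i j
    have := hγ i j
    simp only [hd]
    fun_prop
  have hd0 : ∀ i j, d i j 0 = 0 := by intro i j; simp [hd, h0]
  have hd1 : ∀ i j, d i j 1 = 0 := by intro i j; simp [hd, h1]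
  set e : Fin m → Fin m → X → E := fun i j x => if p i x * p j x = 0 then 0 else d i j (p j x) with he
  have hec : ∀ i j, i ≠ j → Continuous (e i j) := by
    intro i j hij
    rw [← continuousOn_univ]
    have hC1 : IsClosed {x | p i x + p j x = 1} := isClosed_eq (by fun_prop) (by fun_prop)
    have hC2 : IsClosed {x | p i x * p j x = 0} := isClosed_eq (by fun_prop) (by fun_prop)
    have hU : (univ : Set X) = {x | p i x + p j x = 1} ∪ {x | p i x * p j x = 0} := by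
      ext x
      simp only [mem_univ, mem_union, mem_ofPred_eq, true_iff]
      by_cases hx : p i x * p j x = 0
      · right; exact hx
      · left
        exact (pair_sum p hsum hord x i j hij (left_ne_zero_of_mul hx) (right_ne_zero_of_mul hx)).2
    rw [hU]
    refine ContinuousOn.union_of_isClosed ?_ ?_ hC1 hC2
    · have : ContinuousOn (fun x => d i j (p j x)) {x | p i x + p j x = 1} := by
        have := hdc i j
        apply Continuous.continuousOn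
        fun_prop
      refine this.congr ?_
      intro x hx
      simp only [he]
      split_ifs with h
      · rcases mul_eq_zero.1 h with h2 | h2
        · have : p j x = 1 := by
            have : p i x + p j x = 1 := hx
            linarith
          rw [this, hd1]
        · rw [h2, hd0]
      · rfl
    · have : ContinuousOn (fun _ : X => (0 : E)) {x | p i x * p j x = 0} := continuousOn_const
      refine this.congr ?_
      intro x hx
      simp only [he]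
      exact if_pos hx
  have hΦc : Continuous (fun x => ∑ i, p i x • P i +
      ∑ ij ∈ (Finset.univ : Finset (Fin m × Fin m)).filter (fun ij => ij.1 < ij.2), e ij.1 ij.2 x) := by
    refine Continuous.add ?_ ?_
    · fun_prop
    · apply continuous_finsetSum
      intro ij hij
      have : ij.1 < ij.2 := by simpa using hij
      exact hec ij.1 ij.2 (ne_of_lt this)
  refine ⟨⟨_, hΦc⟩, fun x => ?_⟩
  simp only [ContinuousMap.coe_mk]
  by_cases hx : ∃ i j, i < j ∧ p i x ≠ 0 ∧ p j x ≠ 0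
  · right
    obtain ⟨i, j, hij, hi, hj⟩ := hx
    obtain ⟨hk, hs⟩ := pair_sum p hsum hord x i j (ne_of_lt hij) hi hj
    refine ⟨i, j, hij, hi, hj, p j x, ⟨hnonneg j x, by linarith [hnonneg i x]⟩, ?_⟩
    rw [Finset.sum_eq_add i j (ne_of_lt hij) (fun c _ hc => by rw [hk c hc.1 hc.2, zero_smul]) (by simp) (by simp)]
    rw [Finset.sum_eq_single (i, j)]
    · simp only [he]
      rw [if_neg (mul_ne_zero hi hj)]
      simp only [hd]
      have : p i x = 1 - p j x := by linarith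
      rw [this]
      abel
    · rintro ⟨k, l⟩ hkl hne
      simp only [Finset.mem_filter, Finset.mem_univ, true_and] at hkl
      simp only [he]
      rw [if_pos]
      by_contra hcon
      have hk' := left_ne_zero_of_mul hcon
      have hl' := right_ne_zero_of_mul hcon
      have k1 : k = i ∨ k = j := by
        by_contra hh; push Not at hh; exact hk' (hk k hh.1 hh.2)
      have l1 : l = i ∨ l = j := by
        by_contra hh; push Not at hh; exact hl' (hk l hh.1 hh.2)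
      rcases k1 with rfl | rfl <;> rcases l1 with rfl | rfl
      · exact lt_irrefl _ hkl
      · exact hne rfl
      · exact lt_asymm hkl hij
      · exact lt_irrefl _ hkl
    · intro hcon
      exact absurd (by simp [hij]) hcon
  · left
    push Not at hx
    have hex : ∃ i, p i x ≠ 0 := by
      by_contra hcon
      push Not at hcon
      have := hsum x
      rw [Finset.sum_eq_zero (fun i _ => hcon i)] at this
      exact zero_ne_one this
    obtain ⟨i, hi⟩ := hex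
    have huniq : ∀ k, k ≠ i → p k x = 0 := by
      intro k hk
      by_contra hkx
      rcases lt_or_gt_of_ne hk with h | h
      · exact hi (hx k i h hkx)
      · exact hkx (hx i k h hi)
    have hone : p i x = 1 := by
      rw [← hsum x, Finset.sum_eq_single i (fun k _ hk => huniq k hk) (by simp)]
    refine ⟨i, hi, ?_⟩
    rw [Finset.sum_eq_single i (fun k _ hk => by rw [huniq k hk, zero_smul]) (by simp), hone, one_smul]
    rw [Finset.sum_eq_zero, add_zero]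
    rintro ⟨k, l⟩ hkl
    simp only [Finset.mem_filter, Finset.mem_univ, true_and] at hkl
    simp only [he]
    rw [if_pos]
    by_contra hcon
    exact right_ne_zero_of_mul hcon (hx k l hkl (left_ne_zero_of_mul hcon))

end glue


/-- One approximation step. -/
lemma step {X : Type*} [TopologicalSpace X] [CompactSpace X] [T2Space X] (hX : CoveringDimLE X 1)
    (f g h : C(X, ℂ)) (r η : ℝ) (hr : 0 < r) (hη : 0 < η)
    (H : ∀ x, ‖h x - f x * g x‖ ≤ r ^ 2) :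
    ∃ F G : C(X, ℂ), (∀ x, ‖f x - F x‖ ≤ 50 * r) ∧ (∀ x, ‖g x - G x‖ ≤ 50 * r) ∧
      (∀ x, ‖h x - F x * G x‖ ≤ η) := by
  classical
  -- the small parameters
  obtain ⟨κ, hκ, hκr, hκη⟩ : ∃ κ : ℝ, 0 < κ ∧ 3 * κ ≤ r ∧ 10 * κ ^ 2 ≤ η / 2 := by
    refine ⟨min (r / 3) (min 1 (η / 20)), by positivity, ?_, ?_⟩
    · have := min_le_left (r / 3) (min 1 (η / 20))
      linarith
    · have h1 : min (r / 3) (min 1 (η / 20)) ≤ 1 := le_trans (min_le_right _ _) (min_le_left _ _)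
      have h2 : min (r / 3) (min 1 (η / 20)) ≤ η / 20 := le_trans (min_le_right _ _) (min_le_right _ _)
      have h3 : 0 < min (r / 3) (min 1 (η / 20)) := by positivity
      nlinarith
  obtain ⟨ω, hω, hωκ, hωr, hωη⟩ : ∃ ω : ℝ, 0 < ω ∧ 2 * ω ≤ κ ^ 2 ∧ 2 * ω ≤ r ∧ ω ≤ η / 2 := by
    refine ⟨min (κ ^ 2 / 2) (min (r / 2) (η / 2)), by positivity, ?_, ?_, ?_⟩
    · have := min_le_left (κ ^ 2 / 2) (min (r / 2) (η / 2))
      linarith
    · have := le_trans (min_le_right (κ ^ 2 / 2) (min (r / 2) (η / 2))) (min_le_left _ _)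
      linarith
    · exact le_trans (min_le_right (κ ^ 2 / 2) (min (r / 2) (η / 2))) (min_le_right _ _)
  -- the cover
  set U : X → Set X := fun x => {y | ‖f y - f x‖ < ω ∧ ‖g y - g x‖ < ω ∧ ‖h y - h x‖ < ω} with hU
  have hUo : ∀ x, IsOpen (U x) := by
    intro x
    have h1 : IsOpen {y | ‖f y - f x‖ < ω} := isOpen_lt (by fun_prop) (by fun_prop)
    have h2 : IsOpen {y | ‖g y - g x‖ < ω} := isOpen_lt (by fun_prop) (by fun_prop)
    have h3 : IsOpen {y | ‖h y - h x‖ < ω} := isOpen_lt (by fun_prop) (by fun_prop)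
    exact h1.inter (h2.inter h3)
  have hUx : ∀ x, x ∈ U x := by
    intro x
    simp [hU, hω]
  obtain ⟨T, hT⟩ := (isCompact_univ (X := X)).elim_nhds_subcover U
    (fun x _ => (hUo x).mem_nhds (hUx x))
  obtain ⟨m, V, hVo, hVc, hVU, hVn⟩ := hX T.card (fun i => U ((T.equivFin).symm i)) (fun i => hUo _) (by
    rw [Set.eq_univ_iff_forall]
    intro x
    have := hT.2 (Set.mem_univ x)
    simp only [Set.mem_iUnion] at this ⊢
    obtain ⟨t, htT, htx⟩ := this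
    refine ⟨T.equivFin ⟨t, htT⟩, ?_⟩
    simpa using htx)
  have hz : ∀ j, ∃ z : X, V j ⊆ U z := by
    intro j
    obtain ⟨i, hi⟩ := hVU j
    exact ⟨_, hi⟩
  choose z hz using hz
  -- the partition of unity
  obtain ⟨ρ, hρ⟩ := PartitionOfUnity.exists_isSubordinate (isClosed_univ (X := X)) V hVo (by rw [hVc])
  set p : Fin m → C(X, ℝ) := fun i => ρ i with hp
  have hpn : ∀ i x, 0 ≤ p i x := fun i x => ρ.nonneg i x
  have hps : ∀ x, ∑ i, p i x = 1 := by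
    intro x
    have := ρ.sum_eq_one (Set.mem_univ x)
    rw [finsum_eq_sum_of_fintype] at this
    exact this
  have hpV : ∀ i x, p i x ≠ 0 → x ∈ V i := by
    intro i x hx
    exact hρ i (subset_tsupport _ hx)
  have hpo : ∀ x, {j | p j x ≠ 0}.ncard ≤ 2 := by
    intro x
    refine le_trans (Set.ncard_le_ncard ?_ (Set.toFinite _)) (hVn x)
    intro j hj
    exact hpV j x hj
  -- the vertices
  have hP : ∀ j, ∃ A B : ℂ, A * B = h (z j) ∧ ‖A - f (z j)‖ ≤ 3 * r ∧ ‖B - g (z j)‖ ≤ 3 * r :=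
    fun j => scalar_open _ _ _ r hr (H (z j))
  choose A B hAB hA hB using hP
  -- the edges
  have hγ : ∀ i j, ∃ γ : ℝ → ℂ × ℂ, Continuous γ ∧ γ 0 = (A i, B i) ∧ γ 1 = (A j, B j) ∧
      ((V i ∩ V j).Nonempty → ∀ t, ‖(γ t).1 * (γ t).2 - h (z i)‖ ≤ 10 * κ ^ 2 ∧
        ‖(γ t).1 - f (z i)‖ ≤ 45 * r ∧ ‖(γ t).2 - g (z i)‖ ≤ 45 * r) := by
    intro i j
    by_cases hV : (V i ∩ V j).Nonempty
    · obtain ⟨y, hyi, hyj⟩ := hV
      obtain ⟨f1, g1, h1⟩ := hz i hyi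
      obtain ⟨f2, g2, h2⟩ := hz j hyj
      have tri : ∀ (u v w : ℂ), ‖w - u‖ < ω → ‖w - v‖ < ω → ‖v - u‖ ≤ 2 * ω := by
        intro u v w hu hv
        have : v - u = (w - u) - (w - v) := by ring
        rw [this]
        calc _ ≤ ‖w - u‖ + ‖w - v‖ := norm_sub_le _ _
          _ ≤ 2 * ω := by linarith
      have hf := tri _ _ _ f1 f2
      have hg := tri _ _ _ g1 g2
      have hh := tri _ _ _ h2 h1
      have bA : ‖A j - f (z i)‖ ≤ 4 * r := by
        have : A j - f (z i) = (A j - f (z j)) + (f (z j) - f (z i)) := by ring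
        rw [this]
        calc _ ≤ ‖A j - f (z j)‖ + ‖f (z j) - f (z i)‖ := norm_add_le _ _
          _ ≤ 4 * r := by linarith [hA j]
      have bB : ‖B j - g (z i)‖ ≤ 4 * r := by
        have : B j - g (z i) = (B j - g (z j)) + (g (z j) - g (z i)) := by ring
        rw [this]
        calc _ ≤ ‖B j - g (z j)‖ + ‖g (z j) - g (z i)‖ := norm_add_le _ _
          _ ≤ 4 * r := by linarith [hB j]
      obtain ⟨γ, hγ⟩ := scalar_joined' (f (z i)) (g (z i)) (h (z i)) (h (z j)) (A i) (B i) (A j) (B j)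
        r κ hκ hκr (hAB i) (hAB j) (hh.trans hωκ) (by linarith [hA i]) (by linarith [hB i]) bA bB
      refine ⟨γ.extend, γ.continuous_extend, γ.extend_zero, γ.extend_one, fun _ t => ?_⟩
      have ht : γ.extend t ∈ Set.range γ := by
        rw [← γ.extend_range]
        exact ⟨t, rfl⟩
      obtain ⟨s, hs⟩ := ht
      rw [← hs]
      exact hγ s
    · refine ⟨fun t => (1 - t) • ((A i, B i) : ℂ × ℂ) + t • ((A j, B j) : ℂ × ℂ), by fun_prop,
        by simp, by simp, fun hcon => absurd hcon hV⟩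
  choose γ hγc hγ0 hγ1 hγb using hγ
  obtain ⟨Φ, hΦ⟩ := glue p hpn hps hpo (fun i => ((A i, B i) : ℂ × ℂ)) γ hγc hγ0 hγ1
  have key : ∀ x, ∃ i, x ∈ V i ∧ ‖(Φ x).1 * (Φ x).2 - h (z i)‖ ≤ 10 * κ ^ 2 ∧
        ‖(Φ x).1 - f (z i)‖ ≤ 45 * r ∧ ‖(Φ x).2 - g (z i)‖ ≤ 45 * r := by
    intro x
    rcases hΦ x with ⟨i, hi, hx⟩ | ⟨i, j, -, hi, hj, t, -, hx⟩
    · refine ⟨i, hpV i x hi, ?_⟩
      rw [hx]
      refine ⟨?_, by simp only []; linarith [hA i], by simp only []; linarith [hB i]⟩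
      simp only [hAB, sub_self, norm_zero]
      positivity
    · refine ⟨i, hpV i x hi, ?_⟩
      rw [hx]
      exact hγb i j ⟨x, hpV i x hi, hpV j x hj⟩ t
  refine ⟨⟨fun x => (Φ x).1, by fun_prop⟩, ⟨fun x => (Φ x).2, by fun_prop⟩, fun x => ?_, fun x => ?_,
    fun x => ?_⟩
  · obtain ⟨i, hi, h1, h2, h3⟩ := key x
    obtain ⟨f1, g1, hh1⟩ := hz i hi
    simp only [ContinuousMap.coe_mk]
    have : f x - (Φ x).1 = (f x - f (z i)) - ((Φ x).1 - f (z i)) := by ring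
    rw [this]
    calc _ ≤ ‖f x - f (z i)‖ + ‖(Φ x).1 - f (z i)‖ := norm_sub_le _ _
      _ ≤ 50 * r := by linarith
  · obtain ⟨i, hi, h1, h2, h3⟩ := key x
    obtain ⟨f1, g1, hh1⟩ := hz i hi
    simp only [ContinuousMap.coe_mk]
    have : g x - (Φ x).2 = (g x - g (z i)) - ((Φ x).2 - g (z i)) := by ring
    rw [this]
    calc _ ≤ ‖g x - g (z i)‖ + ‖(Φ x).2 - g (z i)‖ := norm_sub_le _ _
      _ ≤ 50 * r := by linarith
  · obtain ⟨i, hi, h1, h2, h3⟩ := key x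
    obtain ⟨f1, g1, hh1⟩ := hz i hi
    simp only [ContinuousMap.coe_mk]
    have : h x - (Φ x).1 * (Φ x).2 = (h x - h (z i)) - ((Φ x).1 * (Φ x).2 - h (z i)) := by ring
    rw [this]
    calc _ ≤ ‖h x - h (z i)‖ + ‖(Φ x).1 * (Φ x).2 - h (z i)‖ := norm_sub_le _ _
      _ ≤ η := by linarith

/-- Exact factorisation with square-root control. -/
lemma exact_factor {X : Type*} [TopologicalSpace X] [CompactSpace X] [T2Space X]
    (hX : CoveringDimLE X 1) (f g h : C(X, ℂ)) (r : ℝ) (hr : 0 < r)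
    (H : ∀ x, ‖h x - f x * g x‖ ≤ r ^ 2) :
    ∃ F G : C(X, ℂ), dist f F ≤ 100 * r ∧ dist g G ≤ 100 * r ∧ F * G = h := by
  have st : ∀ (n : ℕ) (q : {q : C(X, ℂ) × C(X, ℂ) // ∀ x, ‖h x - q.1 x * q.2 x‖ ≤ (r / 2 ^ n) ^ 2}),
      ∃ q' : {q : C(X, ℂ) × C(X, ℂ) // ∀ x, ‖h x - q.1 x * q.2 x‖ ≤ (r / 2 ^ (n + 1)) ^ 2},
        dist q.1.1 q'.1.1 ≤ 50 * (r / 2 ^ n) ∧ dist q.1.2 q'.1.2 ≤ 50 * (r / 2 ^ n) := by
    intro n q
    obtain ⟨F, G, hF, hG, hFG⟩ := step hX q.1.1 q.1.2 h (r / 2 ^ n) ((r / 2 ^ (n + 1)) ^ 2)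
      (by positivity) (by positivity) q.2
    refine ⟨⟨(F, G), hFG⟩, ?_, ?_⟩
    · rw [ContinuousMap.dist_le (by positivity)]
      intro x
      rw [dist_eq_norm]; exact hF x
    · rw [ContinuousMap.dist_le (by positivity)]
      intro x
      rw [dist_eq_norm]; exact hG x
  choose S hS1 hS2 using st
  let q : ∀ n : ℕ, {q : C(X, ℂ) × C(X, ℂ) // ∀ x, ‖h x - q.1 x * q.2 x‖ ≤ (r / 2 ^ n) ^ 2} :=
    fun n => Nat.rec ⟨(f, g), by simpa using H⟩ (fun n q => S n q) n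
  have hq0 : (q 0).1 = (f, g) := rfl
  have hqs : ∀ n, q (n + 1) = S n (q n) := fun n => rfl
  have d1 : ∀ n, dist (q n).1.1 (q (n + 1)).1.1 ≤ (100 * r) / 2 / 2 ^ n := by
    intro n
    rw [hqs]
    refine (hS1 n (q n)).trans (le_of_eq ?_)
    ring
  have d2 : ∀ n, dist (q n).1.2 (q (n + 1)).1.2 ≤ (100 * r) / 2 / 2 ^ n := by
    intro n
    rw [hqs]
    refine (hS2 n (q n)).trans (le_of_eq ?_)
    ring
  obtain ⟨F, hF⟩ := cauchySeq_tendsto_of_complete (cauchySeq_of_le_geometric_two d1)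
  obtain ⟨G, hG⟩ := cauchySeq_tendsto_of_complete (cauchySeq_of_le_geometric_two d2)
  refine ⟨F, G, ?_, ?_, ?_⟩
  · exact dist_le_of_le_geometric_two_of_tendsto₀ d1 hF
  · exact dist_le_of_le_geometric_two_of_tendsto₀ d2 hG
  · have hlim : Filter.Tendsto (fun n => (q n).1.1 * (q n).1.2) Filter.atTop (nhds (F * G)) := hF.mul hG
    have hlim2 : Filter.Tendsto (fun n => (q n).1.1 * (q n).1.2) Filter.atTop (nhds h) := by
      rw [tendsto_iff_dist_tendsto_zero]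
      refine squeeze_zero (fun n => dist_nonneg) (g := fun n => (r / 2 ^ n) ^ 2) ?_ ?_
      · intro n
        rw [ContinuousMap.dist_le (by positivity)]
        intro x
        rw [dist_comm, dist_eq_norm]
        exact (q n).2 x
      · have : Filter.Tendsto (fun n : ℕ => r * (1 / 2 : ℝ) ^ n) Filter.atTop (nhds (r * 0)) :=
          (tendsto_pow_atTop_nhds_zero_of_lt_one (by norm_num) (by norm_num)).const_mul r
        have h2 := this.pow 2
        simp only [mul_zero, ne_eq, OfNat.ofNat_ne_zero, not_false_eq_true, zero_pow] at h2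
        refine h2.congr (fun n => ?_)
        rw [div_eq_mul_inv r, one_div, inv_pow]
    exact tendsto_nhds_unique hlim hlim2

end Pool.Agent.helper30.OpenMul
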